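import Mathlib

/-!
# Measures on complete Boolean algebras and on their complete subalgebras
-/

set_option autoImplicit false

namespace Pool.Agent.U96.MCG

open Set Function Filter Topology

universe u

/-- A (finite, strictly positive, countably additive) measure on a Boolean algebra `A`. -/
structure IsMeasure {A : Type u} [BooleanAlgebra A] (μ : A → ℝ) : Prop where
  nonneg : ∀ a, 0 ≤ μ a
  pos : ∀ a, a ≠ ⊥ → 0 < μ a
  sum : ∀ (f : ℕ → A) (s : A), Pairwise (Disjoint on f) → IsLUB (range f) s →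
    HasSum (fun n => μ (f n)) (μ s)

/-- A subalgebra closed under all suprema and infima taken in `B`. -/
def IsCompleteSubalgebra {B : Type u} [CompleteBooleanAlgebra B] (A : BooleanSubalgebra B) : Prop :=
  ∀ S : Set B, S ⊆ A → sSup S ∈ A ∧ sInf S ∈ A

/-- `A` is the smallest complete subalgebra containing some countable set. -/
def IsCountablyGenerated {B : Type u} [CompleteBooleanAlgebra B] (A : BooleanSubalgebra B) : Prop :=
  ∃ S : Set B, S.Countable ∧ S ⊆ A ∧ IsCompleteSubalgebra A ∧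
    ∀ A' : BooleanSubalgebra B, IsCompleteSubalgebra A' → S ⊆ A' → A ≤ A'

section

variable {B : Type u} [CompleteBooleanAlgebra B]

/-- the complete subalgebra generated by `S` -/
def gen (S : Set B) : BooleanSubalgebra B where
  carrier := {b | ∀ A' : BooleanSubalgebra B, IsCompleteSubalgebra A' → S ⊆ A' → b ∈ A'}
  supClosed' := fun _ ha _ hb A' h1 h2 => A'.sup_mem (ha A' h1 h2) (hb A' h1 h2)
  infClosed' := fun _ ha _ hb A' h1 h2 => A'.inf_mem (ha A' h1 h2) (hb A' h1 h2)
  compl_mem' := fun {_} ha A' h1 h2 => A'.compl_mem (ha A' h1 h2)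
  bot_mem' := fun A' _ _ => A'.bot_mem

theorem mem_gen {S : Set B} {b : B} : b ∈ gen S ↔
    ∀ A' : BooleanSubalgebra B, IsCompleteSubalgebra A' → S ⊆ A' → b ∈ A' := Iff.rfl

theorem subset_gen (S : Set B) : S ⊆ gen S := fun _ hb _ _ h2 => h2 hb

theorem gen_complete (S : Set B) : IsCompleteSubalgebra (gen S) := by
  intro T hT
  refine ⟨mem_gen.2 fun A' h1 h2 => (h1 T fun t ht => mem_gen.1 (hT ht) A' h1 h2).1,
    mem_gen.2 fun A' h1 h2 => (h1 T fun t ht => mem_gen.1 (hT ht) A' h1 h2).2⟩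

theorem gen_cg {S : Set B} (hS : S.Countable) : IsCountablyGenerated (gen S) :=
  ⟨S, hS, subset_gen S, gen_complete S, fun A' h1 h2 _ hb => mem_gen.1 hb A' h1 h2⟩

theorem gen_mono {S T : Set B} (h : S ⊆ T) : gen S ≤ gen T :=
  fun _ hb => mem_gen.2 fun A' h1 h2 => mem_gen.1 hb A' h1 (h.trans h2)

theorem iSup_mem {A : BooleanSubalgebra B} (hA : IsCompleteSubalgebra A) {ι : Type*} {f : ι → B}
    (hf : ∀ i, f i ∈ A) : ⨆ i, f i ∈ A :=
  (hA (range f) (by rintro _ ⟨i, rfl⟩; exact hf i)).1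

theorem iInf_mem {A : BooleanSubalgebra B} (hA : IsCompleteSubalgebra A) {ι : Type*} {f : ι → B}
    (hf : ∀ i, f i ∈ A) : ⨅ i, f i ∈ A :=
  (hA (range f) (by rintro _ ⟨i, rfl⟩; exact hf i)).2

/-- measures on a complete subalgebra, as functions on `B` -/
structure MOn (A : BooleanSubalgebra B) (μ : B → ℝ) : Prop where
  nonneg : ∀ a ∈ A, 0 ≤ μ a
  pos : ∀ a ∈ A, a ≠ ⊥ → 0 < μ a
  sum : ∀ f : ℕ → B, (∀ n, f n ∈ A) → Pairwise (Disjoint on f) →
    HasSum (fun n => μ (f n)) (μ (⨆ n, f n))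

theorem mOn_of_isMeasure {A : BooleanSubalgebra B} (hA : IsCompleteSubalgebra A) {μ : A → ℝ}
    (h : IsMeasure μ) : ∃ ν : B → ℝ, MOn A ν := by
  classical
  refine ⟨fun b => if hb : b ∈ A then μ ⟨b, hb⟩ else 0, ?_, ?_, ?_⟩
  · intro a ha
    simp only [ha, dif_pos]
    exact h.nonneg _
  · intro a ha h0
    simp only [ha, dif_pos]
    refine h.pos _ fun h1 => h0 ?_
    exact congrArg Subtype.val h1
  · intro f hf hd
    have hs : ⨆ n, f n ∈ A := iSup_mem hA hf
    simp only [hf, hs, dif_pos]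
    refine h.sum (fun n => (⟨f n, hf n⟩ : A)) ⟨_, hs⟩ ?_ ?_
    · intro i j hij
      have := hd hij
      rw [Function.onFun, disjoint_iff] at this ⊢
      exact Subtype.ext this
    · constructor
      · rintro _ ⟨n, rfl⟩
        exact le_iSup f n
      · intro c hc
        have : ⨆ n, f n ≤ (c : B) := iSup_le fun n => hc ⟨n, rfl⟩
        exact this

namespace MOn

variable {A : BooleanSubalgebra B} {μ : B → ℝ}

theorem bot (h : MOn A μ) : μ ⊥ = 0 := by
  have h1 := (h.sum (fun _ => ⊥) (fun _ => A.bot_mem) (fun _ _ _ => disjoint_bot_left)).summable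
  exact (summable_const_iff _).1 h1

theorem add (h : MOn A μ) {a b : B} (ha : a ∈ A) (hb : b ∈ A) (hd : Disjoint a b) :
    μ (a ⊔ b) = μ a + μ b := by
  let f : ℕ → B := fun n => if n = 0 then a else if n = 1 then b else ⊥
  have hf : ∀ n, f n ∈ A := by
    intro n
    simp only [f]
    split_ifs
    exacts [ha, hb, A.bot_mem]
  have hdf : Pairwise (Disjoint on f) := by
    intro i j hij
    simp only [Function.onFun, f]
    split_ifs
    all_goals first | exact disjoint_bot_left | exact disjoint_bot_right | exact hd | exact hd.symm | (exfalso; omega)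
  have h1 := h.sum f hf hdf
  have h2 : ⨆ n, f n = a ⊔ b := by
    apply le_antisymm
    · refine iSup_le fun n => ?_
      simp only [f]
      split_ifs
      exacts [le_sup_left, le_sup_right, bot_le]
    · exact sup_le (le_iSup f 0) (le_iSup f 1)
  rw [h2] at h1
  have h3 : HasSum (fun n => μ (f n)) (∑ n ∈ Finset.range 2, μ (f n)) := by
    apply hasSum_sum_of_ne_finset_zero
    intro n hn
    have : ¬ n < 2 := fun h => hn (Finset.mem_range.2 h)
    have h0 : n ≠ 0 := by omega
    have h1 : n ≠ 1 := by omega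
    simp only [f, h0, h1, if_false]
    exact h.bot
  rw [h1.unique h3]
  simp [Finset.sum_range_succ, f]

theorem mono (h : MOn A μ) {a b : B} (ha : a ∈ A) (hb : b ∈ A) (hab : a ≤ b) : μ a ≤ μ b := by
  have h1 := h.add ha (A.sdiff_mem hb ha) disjoint_sdiff_self_right
  rw [sup_sdiff_cancel_right hab] at h1
  have := h.nonneg _ (A.sdiff_mem hb ha)
  linarith

theorem disjointed_mem {f : ℕ → B} (hf : ∀ n, f n ∈ A) (n : ℕ) : disjointed f n ∈ A :=
  disjointedRec (p := fun t => t ∈ A) (fun {_ i} ht => A.sdiff_mem ht (hf i)) (hf n)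

theorem iSup_le_tsum (h : MOn A μ) {f : ℕ → B} (hf : ∀ n, f n ∈ A)
    (hs : Summable fun n => μ (f n)) : μ (⨆ n, f n) ≤ ∑' n, μ (f n) := by
  have h1 := h.sum _ (disjointed_mem hf) (disjoint_disjointed f)
  rw [iSup_disjointed] at h1
  rw [← h1.tsum_eq]
  exact h1.summable.tsum_le_tsum (fun n => h.mono (disjointed_mem hf n) (hf n) (disjointed_le f n)) hs

theorem restrict (h : MOn A μ) {A' : BooleanSubalgebra B} (hA : A' ≤ A) : MOn A' μ :=
  ⟨fun a ha => h.nonneg a (hA ha), fun a ha => h.pos a (hA ha),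
    fun f hf => h.sum f fun n => hA (hf n)⟩

theorem smul (h : MOn A μ) {c : ℝ} (hc : 0 < c) : MOn A (fun b => c * μ b) :=
  ⟨fun a ha => mul_nonneg hc.le (h.nonneg a ha), fun a ha h0 => mul_pos hc (h.pos a ha h0),
    fun f hf hd => (h.sum f hf hd).mul_left c⟩

/-- absolute continuity -/
theorem abs_cont (h : MOn A μ) (hA : IsCompleteSubalgebra A) {m : B → ℝ} (hm : Monotone m)
    (hc : ∀ f : ℕ → B, Antitone f → ⨅ n, f n = ⊥ → Tendsto (fun n => m (f n)) atTop (𝓝 0))
    {ε : ℝ} (hε : 0 < ε) : ∃ δ > 0, ∀ c ∈ A, ε ≤ m c → δ ≤ μ c := by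
  by_contra hcon
  push Not at hcon
  have h1 : ∀ k : ℕ, ∃ c ∈ A, ε ≤ m c ∧ μ c < (1 / 2) ^ k := fun k => hcon _ (by positivity)
  choose c hcA hcm hcμ using h1
  let d : ℕ → B := fun j => ⨆ k, c (j + k)
  have hdA : ∀ j, d j ∈ A := fun j => iSup_mem hA fun k => hcA _
  have hdanti : Antitone d := by
    refine antitone_nat_of_succ_le fun j => ?_
    refine iSup_le fun k => ?_
    have : c (j + 1 + k) = c (j + (k + 1)) := by congr 1; omega
    rw [this]
    exact le_iSup (fun k => c (j + k)) (k + 1)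
  have hdle : ∀ j, μ (d j) ≤ 2 * (1 / 2) ^ j := by
    intro j
    have hgeo : HasSum (fun k : ℕ => ((1 : ℝ) / 2) ^ (j + k)) (2 * (1 / 2) ^ j) := by
      have h2 := (hasSum_geometric_two).mul_left (((1 : ℝ) / 2) ^ j)
      have e : (fun k : ℕ => ((1 : ℝ) / 2) ^ (j + k)) = fun k => (1 / 2) ^ j * (1 / 2) ^ k :=
        funext fun k => pow_add _ _ _
      rw [e, mul_comm 2]
      exact h2
    have hs : Summable fun k => μ (c (j + k)) :=
      Summable.of_nonneg_of_le (fun k => h.nonneg _ (hcA _)) (fun k => (hcμ _).le) hgeo.summable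
    refine (h.iSup_le_tsum (fun k => hcA _) hs).trans ?_
    rw [← hgeo.tsum_eq]
    exact hs.tsum_le_tsum (fun k => (hcμ _).le) hgeo.summable
  have hinf : ⨅ j, d j = ⊥ := by
    by_contra hne
    have hmem : ⨅ j, d j ∈ A := iInf_mem hA hdA
    have hpos := h.pos _ hmem hne
    have hle : ∀ j, μ (⨅ j, d j) ≤ 2 * (1 / 2) ^ j := fun j =>
      (h.mono hmem (hdA j) (iInf_le d j)).trans (hdle j)
    have hlim : Tendsto (fun j : ℕ => 2 * ((1 : ℝ) / 2) ^ j) atTop (𝓝 (2 * 0)) :=
      (tendsto_pow_atTop_nhds_zero_of_lt_one (by norm_num) (by norm_num)).const_mul 2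
    rw [mul_zero] at hlim
    have := ge_of_tendsto' hlim hle
    linarith
  have hlim := hc d hdanti hinf
  have hge : ∀ j, ε ≤ m (d j) := fun j => (hcm j).trans (hm (by
    have := le_iSup (fun k => c (j + k)) 0
    simpa using this))
  have := ge_of_tendsto' hlim hge
  linarith

end MOn

end

end Pool.Agent.U96.MCG
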