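import Pool.Agent.U96.MCG.Basic

/-!
# Construction of the measure
-/

set_option autoImplicit false

namespace Pool.Agent.U96.MCG

open Set Function Filter Topology

universe u

variable {B : Type u} [CompleteBooleanAlgebra B]

/-- uniform lower bounds -/
theorem uniform (H : ∀ A : BooleanSubalgebra B, IsCountablyGenerated A → ∃ μ : A → ℝ, IsMeasure μ)
    (hB : (⊤ : B) ≠ ⊥) {m : B → ℝ} (hm : Monotone m)
    (hc : ∀ f : ℕ → B, Antitone f → ⨅ n, f n = ⊥ → Tendsto (fun n => m (f n)) atTop (𝓝 0))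
    {ε : ℝ} (hε : 0 < ε) : ∃ δ > 0, ∀ S : Set B, S.Countable →
      ∃ μ : B → ℝ, MOn (gen S) μ ∧ μ ⊤ = 1 ∧ ∀ c ∈ gen S, ε ≤ m c → δ ≤ μ c := by
  by_contra hcon
  push Not at hcon
  have h1 : ∀ k : ℕ, ∃ S : Set B, S.Countable ∧ ∀ μ : B → ℝ, MOn (gen S) μ → μ ⊤ = 1 →
      ∃ c ∈ gen S, ε ≤ m c ∧ μ c < 1 / ((k : ℝ) + 1) := fun k => hcon _ (by positivity)
  choose S hS hSμ using h1
  have hcount : (⋃ k, S k).Countable := countable_iUnion hS
  obtain ⟨μ0, h0⟩ := H _ (gen_cg hcount)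
  obtain ⟨μ1, h1⟩ := mOn_of_isMeasure (gen_complete _) h0
  have htop : 0 < μ1 ⊤ := h1.pos _ (gen _).top_mem hB
  have h2 := h1.smul (inv_pos.2 htop)
  obtain ⟨δ, hδ, h3⟩ := h2.abs_cont (gen_complete _) hm hc hε
  obtain ⟨k, hk⟩ := exists_nat_one_div_lt hδ
  obtain ⟨c, hc1, hc2, hc3⟩ := hSμ k _ (h2.restrict (gen_mono (subset_iUnion S k)))
    (inv_mul_cancel₀ htop.ne')
  have := h3 c (gen_mono (subset_iUnion S k) hc1) hc2
  linarith

/-- finitely additive probabilities with a uniform lower bound -/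
theorem exists_fa {m : B → ℝ} {ε δ : ℝ} (H : ∀ S : Set B, S.Countable →
      ∃ μ : B → ℝ, MOn (gen S) μ ∧ μ ⊤ = 1 ∧ ∀ c ∈ gen S, ε ≤ m c → δ ≤ μ c) :
    ∃ μ : B → ℝ, (∀ b, 0 ≤ μ b) ∧ (∀ b, μ b ≤ 1) ∧
      (∀ a b, Disjoint a b → μ (a ⊔ b) = μ a + μ b) ∧ ∀ c, ε ≤ m c → δ ≤ μ c := by
  classical
  let K : Finset B → Set (B → ℝ) := fun F =>
    (Set.pi univ fun _ => Icc 0 1) ∩
      ((⋂ a ∈ F, ⋂ b ∈ F, ⋂ _ : Disjoint a b, {f | f (a ⊔ b) = f a + f b}) ∩
        ⋂ c ∈ F, ⋂ _ : ε ≤ m c, {f | δ ≤ f c})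
  have hclosed : ∀ F, IsClosed (K F) := by
    intro F
    refine IsClosed.inter (isClosed_set_pi fun _ _ => isClosed_Icc) (IsClosed.inter ?_ ?_)
    · refine isClosed_iInter fun a => isClosed_iInter fun _ => isClosed_iInter fun b =>
        isClosed_iInter fun _ => isClosed_iInter fun _ => ?_
      exact isClosed_eq (continuous_apply _) ((continuous_apply a).add (continuous_apply b))
    · refine isClosed_iInter fun a => isClosed_iInter fun _ => isClosed_iInter fun _ => ?_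
      exact isClosed_le continuous_const (continuous_apply _)
  have hcompact : ∀ F, IsCompact (K F) := fun F =>
    (isCompact_univ_pi fun _ => isCompact_Icc).of_isClosed_subset (hclosed F) inter_subset_left
  have hne : ∀ F, (K F).Nonempty := by
    intro F
    obtain ⟨μ, h1, h2, h3⟩ := H F F.countable_toSet
    refine ⟨fun b => if b ∈ gen (F : Set B) then μ b else 0, ?_, ?_, ?_⟩
    · intro b _
      by_cases hb : b ∈ gen (F : Set B)
      · simp only [hb, if_true]
        exact ⟨h1.nonneg b hb, h2 ▸ h1.mono hb (gen _).top_mem le_top⟩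
      · simp only [hb, if_false]
        exact ⟨le_rfl, zero_le_one⟩
    · simp only [mem_iInter, mem_ofPred_eq]
      intro a ha b hb hd
      have ha' : a ∈ gen (F : Set B) := subset_gen (F : Set B) ha
      have hb' : b ∈ gen (F : Set B) := subset_gen (F : Set B) hb
      rw [if_pos ((gen _).sup_mem ha' hb'), if_pos ha', if_pos hb']
      exact h1.add ha' hb' hd
    · simp only [mem_iInter, mem_ofPred_eq]
      intro c hcF hcm
      have hc' : c ∈ gen (F : Set B) := subset_gen (F : Set B) hcF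
      rw [if_pos hc']
      exact h3 c hc' hcm
  have hdir : Directed (· ⊇ ·) K := by
    intro F G
    refine ⟨F ∪ G, ?_, ?_⟩
    · rintro f ⟨h1, h2, h3⟩
      simp only [mem_iInter] at h2 h3
      refine ⟨h1, ?_, ?_⟩
      · simp only [mem_iInter]
        exact fun a ha b hb => h2 a (Finset.mem_union_left _ ha) b (Finset.mem_union_left _ hb)
      · simp only [mem_iInter]
        exact fun c hc => h3 c (Finset.mem_union_left _ hc)
    · rintro f ⟨h1, h2, h3⟩
      simp only [mem_iInter] at h2 h3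
      refine ⟨h1, ?_, ?_⟩
      · simp only [mem_iInter]
        exact fun a ha b hb => h2 a (Finset.mem_union_right _ ha) b (Finset.mem_union_right _ hb)
      · simp only [mem_iInter]
        exact fun c hc => h3 c (Finset.mem_union_right _ hc)
  obtain ⟨f, hf⟩ := IsCompact.nonempty_iInter_of_directed_nonempty_isCompact_isClosed K hdir hne
    hcompact hclosed
  rw [mem_iInter] at hf
  refine ⟨f, fun b => ((hf ∅).1 b trivial).1, fun b => ((hf ∅).1 b trivial).2, ?_, ?_⟩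
  · intro a b hd
    have := (hf {a, b}).2.1
    simp only [mem_iInter, mem_ofPred_eq] at this
    exact this a (by simp) b (by simp) hd
  · intro c hcm
    have := (hf {c}).2.2
    simp only [mem_iInter, mem_ofPred_eq] at this
    exact this c (by simp) hcm

/-- a strictly positive, finitely additive measure -/
theorem exists_fa_pos
    (H : ∀ A : BooleanSubalgebra B, IsCountablyGenerated A → ∃ μ : A → ℝ, IsMeasure μ)
    (hB : (⊤ : B) ≠ ⊥) {m : B → ℝ} (hpos : ∀ a, a ≠ ⊥ → 0 < m a) (hm : Monotone m)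
    (hc : ∀ f : ℕ → B, Antitone f → ⨅ n, f n = ⊥ → Tendsto (fun n => m (f n)) atTop (𝓝 0)) :
    ∃ μ : B → ℝ, (∀ b, 0 ≤ μ b) ∧ (∀ b, b ≠ ⊥ → 0 < μ b) ∧
      (∀ a b, Disjoint a b → μ (a ⊔ b) = μ a + μ b) := by
  have h1 : ∀ n : ℕ, ∃ δ > 0, ∃ μ : B → ℝ, (∀ b, 0 ≤ μ b) ∧ (∀ b, μ b ≤ 1) ∧
      (∀ a b, Disjoint a b → μ (a ⊔ b) = μ a + μ b) ∧ ∀ c, 1 / ((n : ℝ) + 1) ≤ m c → δ ≤ μ c := by
    intro n
    obtain ⟨δ, hδ, h⟩ := uniform H hB hm hc (ε := 1 / ((n : ℝ) + 1)) (by positivity)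
    exact ⟨δ, hδ, exists_fa h⟩
  choose δ hδ μ h0 h1 hadd hlow using h1
  have hsum : ∀ b, Summable fun n : ℕ => ((1 : ℝ) / 2) ^ n * μ n b := fun b =>
    Summable.of_nonneg_of_le (fun n => mul_nonneg (by positivity) (h0 n b))
      (fun n => mul_le_of_le_one_right (by positivity) (h1 n b)) summable_geometric_two
  refine ⟨fun b => ∑' n : ℕ, ((1 : ℝ) / 2) ^ n * μ n b, fun b => ?_, fun b hb => ?_,
    fun a b hd => ?_⟩
  · exact tsum_nonneg fun n => mul_nonneg (by positivity) (h0 n b)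
  · obtain ⟨n, hn⟩ := exists_nat_one_div_lt (hpos b hb)
    have h2 := hlow n b hn.le
    exact (hsum b).tsum_pos (fun n => mul_nonneg (by positivity) (h0 n b)) n
      (mul_pos (by positivity) ((hδ n).trans_le h2))
  · simp only [hadd _ a b hd, mul_add]
    exact (hsum a).tsum_add (hsum b)

end Pool.Agent.U96.MCG
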