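import Pool.Agent.U96.MCG.Main

/-!
# The countably additive part of a finitely additive measure
-/

set_option autoImplicit false

namespace Pool.Agent.U96.MCG

open Set Function Filter Topology ENNReal

universe u

variable {B : Type u} [CompleteBooleanAlgebra B]

/-- the countably additive part -/
noncomputable def V (M : B → ℝ≥0∞) (b : B) : ℝ≥0∞ :=
  ⨅ (f : ℕ → B) (_ : Pairwise (Disjoint on f)) (_ : ⨆ n, f n = b), ∑' n, M (f n)

variable {M : B → ℝ≥0∞}

theorem V_le {f : ℕ → B} (hf : Pairwise (Disjoint on f)) : V M (⨆ n, f n) ≤ ∑' n, M (f n) :=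
  iInf_le_of_le f (iInf_le_of_le hf (iInf_le_of_le rfl le_rfl))

theorem le_V {b : B} {c : ℝ≥0∞} (h : ∀ f : ℕ → B, Pairwise (Disjoint on f) → ⨆ n, f n = b →
    c ≤ ∑' n, M (f n)) : c ≤ V M b :=
  le_iInf fun f => le_iInf fun h1 => le_iInf fun h2 => h f h1 h2

theorem exists_lt {b : B} {c : ℝ≥0∞} (h : V M b < c) :
    ∃ f : ℕ → B, Pairwise (Disjoint on f) ∧ ⨆ n, f n = b ∧ ∑' n, M (f n) < c := by
  unfold V at h
  obtain ⟨f, hf⟩ := iInf_lt_iff.1 h
  obtain ⟨h1, hf⟩ := iInf_lt_iff.1 hf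
  obtain ⟨h2, hf⟩ := iInf_lt_iff.1 hf
  exact ⟨f, h1, h2, hf⟩

/-- finite additivity -/
def FA (M : B → ℝ≥0∞) : Prop := M ⊥ = 0 ∧ ∀ a b, Disjoint a b → M (a ⊔ b) = M a + M b

theorem FA.mono (h : FA M) {a b : B} (hab : a ≤ b) : M a ≤ M b := by
  have := h.2 a (b \ a) disjoint_sdiff_self_right
  rw [sup_sdiff_cancel_right hab] at this
  rw [this]
  exact le_self_add

theorem FA.sum_range (h : FA M) {f : ℕ → B} (hf : Pairwise (Disjoint on f)) (n : ℕ) :
    ∑ k ∈ Finset.range n, M (f k) = M ((Finset.range n).sup f) := by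
  induction n with
  | zero => simp [h.1]
  | succ n ih =>
    rw [Finset.sum_range_succ, ih, Finset.range_add_one, Finset.sup_insert, sup_comm, h.2]
    rw [Finset.disjoint_sup_left]
    intro i hi
    exact hf (by have := Finset.mem_range.1 hi; omega)

theorem FA.tsum_le (h : FA M) {f : ℕ → B} (hf : Pairwise (Disjoint on f)) {b : B}
    (hb : ∀ n, f n ≤ b) : ∑' n, M (f n) ≤ M b := by
  refine ENNReal.tsum_le_of_sum_range_le fun n => ?_
  rw [h.sum_range hf]
  exact h.mono (Finset.sup_le fun i _ => hb i)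

theorem V_le_self (h : FA M) (b : B) : V M b ≤ M b := by
  let f : ℕ → B := fun n => if n = 0 then b else ⊥
  have hf : Pairwise (Disjoint on f) := by
    intro i j hij
    simp only [Function.onFun, f]
    split_ifs
    all_goals first | exact disjoint_bot_left | exact disjoint_bot_right | (exfalso; omega)
  have h2 : ⨆ n, f n = b := by
    apply le_antisymm
    · refine iSup_le fun n => ?_
      simp only [f]
      split_ifs
      exacts [le_rfl, bot_le]
    · exact le_iSup f 0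
  have h3 := V_le (M := M) hf
  rw [h2] at h3
  exact h3.trans (h.tsum_le hf fun n => h2 ▸ le_iSup f n)

/-- countable additivity -/
theorem V_iSup (h : FA M) (htop : M ⊤ ≠ ∞) {g : ℕ → B} (hg : Pairwise (Disjoint on g)) :
    V M (⨆ n, g n) = ∑' n, V M (g n) := by
  apply le_antisymm
  · refine ENNReal.le_of_forall_pos_le_add fun ε hε _ => ?_
    obtain ⟨ε', hε', hsum⟩ := ENNReal.exists_pos_sum_of_countable (ENNReal.coe_pos.2 hε).ne' ℕ
    have hfin : ∀ n, V M (g n) ≠ ∞ := fun n =>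
      ((V_le_self h _).trans_lt ((h.mono le_top).trans_lt htop.lt_top)).ne
    have h1 : ∀ n, ∃ f : ℕ → B, Pairwise (Disjoint on f) ∧ ⨆ k, f k = g n ∧
        ∑' k, M (f k) < V M (g n) + ε' n := fun n =>
      exists_lt (ENNReal.lt_add_right (hfin n) (ENNReal.coe_pos.2 (hε' n)).ne')
    choose F hF1 hF2 hF3 using h1
    let G : ℕ → B := fun p => F p.unpair.1 p.unpair.2
    have hG : Pairwise (Disjoint on G) := by
      intro p q hpq
      simp only [Function.onFun, G]
      by_cases h1 : p.unpair.1 = q.unpair.1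
      · have h2 : p.unpair.2 ≠ q.unpair.2 := by
          intro h2
          apply hpq
          rw [← Nat.pair_unpair p, ← Nat.pair_unpair q, h1, h2]
        rw [h1]
        exact hF1 _ h2
      · have hle : ∀ n k, F n k ≤ g n := fun n k => hF2 n ▸ le_iSup (F n) k
        exact (hg h1).mono (hle _ _) (hle _ _)
    have hGs : ⨆ p, G p = ⨆ n, g n := by
      apply le_antisymm
      · refine iSup_le fun p => ?_
        exact (le_iSup (F p.unpair.1) p.unpair.2).trans ((hF2 _).le.trans (le_iSup g _))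
      · refine iSup_le fun n => ?_
        rw [← hF2 n]
        refine iSup_le fun k => ?_
        have := le_iSup G (Nat.pair n k)
        simpa [G] using this
    have hGt : ∑' p, M (G p) = ∑' n, ∑' k, M (F n k) := by
      rw [← ENNReal.tsum_prod]
      rw [← Nat.pairEquiv.symm.tsum_eq fun p : ℕ × ℕ => M (F p.1 p.2)]
      rfl
    calc V M (⨆ n, g n) ≤ ∑' p, M (G p) := hGs ▸ V_le hG
      _ = ∑' n, ∑' k, M (F n k) := hGt
      _ ≤ ∑' n, (V M (g n) + ε' n) := ENNReal.tsum_le_tsum fun n => (hF3 n).le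
      _ = ∑' n, V M (g n) + ∑' n, (ε' n : ℝ≥0∞) := ENNReal.tsum_add
      _ ≤ ∑' n, V M (g n) + ε := by gcongr
  · refine le_V fun f hf hfs => ?_
    have h1 : ∀ n, V M (g n) ≤ ∑' k, M (f k ⊓ g n) := by
      intro n
      have h2 : Pairwise (Disjoint on fun k => f k ⊓ g n) := fun i j hij =>
        (hf hij).mono inf_le_left inf_le_left
      have h3 : ⨆ k, f k ⊓ g n = g n := by
        rw [← iSup_inf_eq, hfs]
        exact inf_eq_right.2 (le_iSup g n)
      have := V_le (M := M) h2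
      rwa [h3] at this
    calc ∑' n, V M (g n) ≤ ∑' n, ∑' k, M (f k ⊓ g n) := ENNReal.tsum_le_tsum h1
      _ = ∑' k, ∑' n, M (f k ⊓ g n) := ENNReal.tsum_comm
      _ ≤ ∑' k, M (f k) := ENNReal.tsum_le_tsum fun k =>
          h.tsum_le (fun i j hij => (hg hij).mono inf_le_right inf_le_right) fun n => inf_le_left

/-- weak distributivity -/
theorem weak_distrib
    (H : ∀ A : BooleanSubalgebra B, IsCountablyGenerated A → ∃ μ : A → ℝ, IsMeasure μ)
    {b : B} (hb : b ≠ ⊥) (f : ℕ → ℕ → B) (hf : ∀ k, Pairwise (Disjoint on f k))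
    (hfb : ∀ k, ⨆ n, f k n = b) :
    ∃ (N : ℕ → ℕ) (c : B), c ≠ ⊥ ∧ ∀ k, c ≤ (Finset.range (N k)).sup (f k) := by
  let S : Set B := range fun p : ℕ × ℕ => f p.1 p.2
  have hS : S.Countable := countable_range _
  obtain ⟨μ0, h0⟩ := H _ (gen_cg hS)
  obtain ⟨μ, h1⟩ := mOn_of_isMeasure (gen_complete _) h0
  have hfm : ∀ k n, f k n ∈ gen S := fun k n => subset_gen S ⟨(k, n), rfl⟩
  have hbm : b ∈ gen S := hfb 0 ▸ iSup_mem (gen_complete S) (hfm 0)
  have hbpos := h1.pos b hbm hb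
  have hsup : ∀ k n, (Finset.range n).sup (f k) ∈ gen S := by
    intro k n
    induction n with
    | zero => simp
    | succ n ih =>
      rw [Finset.range_add_one, Finset.sup_insert]
      exact (gen S).sup_mem (hfm _ _) ih
  have hsum : ∀ k n, ∑ i ∈ Finset.range n, μ (f k i) = μ ((Finset.range n).sup (f k)) := by
    intro k n
    induction n with
    | zero => simp [h1.bot]
    | succ n ih =>
      rw [Finset.sum_range_succ, ih, Finset.range_add_one, Finset.sup_insert, sup_comm,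
        h1.add (hsup k n) (hfm k n)]
      rw [Finset.disjoint_sup_left]
      intro i hi
      exact hf k (by have := Finset.mem_range.1 hi; omega)
  have h2 : ∀ k : ℕ, ∃ n, μ b - μ b * (1 / 2) ^ (k + 2) < μ ((Finset.range n).sup (f k)) := by
    intro k
    have h3 := (h1.sum (f k) (hfm k) (hf k)).tendsto_sum_nat
    rw [hfb k] at h3
    have h4 : μ b - μ b * (1 / 2) ^ (k + 2) < μ b := by
      have : 0 < μ b * (1 / 2) ^ (k + 2) := by positivity
      linarith
    obtain ⟨n, hn⟩ := (h3.eventually (lt_mem_nhds h4)).exists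
    exact ⟨n, by rwa [hsum] at hn⟩
  choose N hN using h2
  let d : ℕ → B := fun k => (Finset.range (N k)).sup (f k)
  have hdb : ∀ k, d k ≤ b := fun k => Finset.sup_le fun i _ => hfb k ▸ le_iSup (f k) i
  refine ⟨N, ⨅ k, d k, ?_, fun k => iInf_le d k⟩
  intro hbot
  have h3 : ∀ k, μ (b \ d k) ≤ μ b * (1 / 2) ^ (k + 2) := by
    intro k
    have h4 := h1.add (hsup k (N k)) ((gen S).sdiff_mem hbm (hsup k (N k)))
      disjoint_sdiff_self_right
    rw [sup_sdiff_cancel_right (hdb k)] at h4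
    have h5 := hN k
    change μ (b \ (Finset.range (N k)).sup (f k)) ≤ _
    linarith
  have hgeo : HasSum (fun k : ℕ => μ b * ((1 : ℝ) / 2) ^ (k + 2)) (μ b / 2) := by
    have h2 := (hasSum_geometric_two).mul_left (μ b * ((1 : ℝ) / 2) ^ 2)
    have e : (fun k : ℕ => μ b * ((1 : ℝ) / 2) ^ (k + 2)) =
        fun k => μ b * (1 / 2) ^ 2 * (1 / 2) ^ k := by
      funext k; rw [pow_add]; ring
    rw [e]
    have e2 : μ b / 2 = μ b * (1 / 2) ^ 2 * 2 := by ring
    rw [e2]
    exact h2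
  have hm : ∀ k, b \ d k ∈ gen S := fun k => (gen S).sdiff_mem hbm (hsup k (N k))
  have hs : Summable fun k => μ (b \ d k) :=
    Summable.of_nonneg_of_le (fun k => h1.nonneg _ (hm k)) h3 hgeo.summable
  have h4 : ⨆ k, b \ d k = b := by
    rw [← sdiff_iInf_eq, hbot, sdiff_bot]
  have h5 := h1.iSup_le_tsum hm hs
  rw [h4] at h5
  have h6 := hs.tsum_le_tsum h3 hgeo.summable
  rw [hgeo.tsum_eq] at h6
  linarith

/-- strict positivity -/
theorem V_pos
    (H : ∀ A : BooleanSubalgebra B, IsCountablyGenerated A → ∃ μ : A → ℝ, IsMeasure μ)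
    (h : FA M) (hpos : ∀ b, b ≠ ⊥ → M b ≠ 0) {b : B} (hb : b ≠ ⊥) : V M b ≠ 0 := by
  intro h0
  have h1 : ∀ k : ℕ, ∃ f : ℕ → B, Pairwise (Disjoint on f) ∧ ⨆ n, f n = b ∧
      ∑' n, M (f n) < ((k : ℝ≥0∞) + 1)⁻¹ := fun k => exists_lt (by rw [h0]; simp)
  choose f hf1 hf2 hf3 using h1
  obtain ⟨N, c, hc, hcN⟩ := weak_distrib H hb f hf1 hf2
  apply hpos c hc
  have h2 : ∀ k : ℕ, M c ≤ ((k : ℝ≥0∞) + 1)⁻¹ := by
    intro k
    refine (h.mono (hcN k)).trans ?_
    rw [← h.sum_range (hf1 k)]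
    exact (ENNReal.sum_le_tsum _).trans (hf3 k).le
  by_contra hne
  obtain ⟨n, hn⟩ := ENNReal.exists_inv_nat_lt hne
  have h3 : ((n : ℝ≥0∞) + 1)⁻¹ ≤ (n : ℝ≥0∞)⁻¹ := by
    rw [ENNReal.inv_le_inv]
    exact le_self_add
  exact absurd ((h2 n).trans h3) (not_le.2 hn)

/-- the main theorem -/
theorem main
    (H : ∀ A : BooleanSubalgebra B, IsCountablyGenerated A → ∃ μ : A → ℝ, IsMeasure μ)
    {m : B → ℝ} (hpos : ∀ a, a ≠ ⊥ → 0 < m a) (hm : Monotone m)
    (hc : ∀ f : ℕ → B, Antitone f → ⨅ n, f n = ⊥ → Tendsto (fun n => m (f n)) atTop (𝓝 0)) :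
    ∃ μ : B → ℝ, IsMeasure μ := by
  by_cases hB : (⊤ : B) = ⊥
  · have h0 : ∀ a : B, a = ⊥ := fun a => le_bot_iff.1 (hB ▸ le_top)
    exact ⟨fun _ => 0, fun _ => le_rfl, fun a ha => absurd (h0 a) ha,
      fun _ _ _ _ => hasSum_zero⟩
  obtain ⟨μ, h1, h2, h3⟩ := exists_fa_pos H hB hpos hm hc
  let M : B → ℝ≥0∞ := fun b => ENNReal.ofReal (μ b)
  have hbot : μ ⊥ = 0 := by
    have := h3 ⊥ ⊥ disjoint_bot_left
    rw [bot_sup_eq] at this
    linarith
  have hFA : FA M := by
    refine ⟨by simp [M, hbot], fun a b hd => ?_⟩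
    simp only [M]
    rw [h3 a b hd, ENNReal.ofReal_add (h1 a) (h1 b)]
  have htop : M ⊤ ≠ ∞ := ENNReal.ofReal_ne_top
  have hMpos : ∀ b, b ≠ ⊥ → M b ≠ 0 := by
    intro b hb
    simp only [M, ne_eq, ENNReal.ofReal_eq_zero, not_le]
    exact h2 b hb
  have hfin : ∀ b, V M b ≠ ∞ := fun b =>
    ((V_le_self hFA _).trans_lt ((hFA.mono le_top).trans_lt htop.lt_top)).ne
  refine ⟨fun b => (V M b).toReal, fun b => ENNReal.toReal_nonneg, fun b hb => ?_,
    fun f s hf hs => ?_⟩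
  · exact ENNReal.toReal_pos (V_pos H hFA hMpos hb) (hfin b)
  · rw [← hs.iSup_eq]
    have h4 := V_iSup hFA htop hf
    have h5 : ∑' n, V M (f n) ≠ ∞ := h4 ▸ hfin _
    have h6 := ENNReal.hasSum_toReal h5
    rw [← ENNReal.tsum_toReal_eq (fun n => hfin (f n)), ← h4] at h6
    exact h6

end Pool.Agent.U96.MCG
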